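import Mathlib

/-!
Definitions used in the statement: Julia set, hyperbolic polynomial, quasisymmetry.
-/

set_option autoImplicit false

open Filter Topology
open scoped NNReal

namespace Pool.Agent.MP_28f04c_an.H67

/-- The n-th iterate of the polynomial map. -/
noncomputable def iter (f : Polynomial ℂ) (n : ℕ) : ℂ → ℂ := (fun w : ℂ => f.eval w)^[n]

/-- The chordal distance of the Riemann sphere between two finite points. -/
noncomputable def chord (z w : ℂ) : ℝ :=
  2 * ‖z - w‖ / (Real.sqrt (1 + ‖z‖ ^ 2) * Real.sqrt (1 + ‖w‖ ^ 2))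

/-- The Julia set: the points of the plane that have no neighbourhood on which the iterates are
equicontinuous for the chordal distance. -/
def julia (f : Polynomial ℂ) : Set ℂ :=
  {z | ¬ ∃ U ∈ 𝓝 z, ∀ w ∈ U, ∀ ε : ℝ, 0 < ε →
    ∀ᶠ w' in 𝓝 w, ∀ n : ℕ, chord (iter f n w') (iter f n w) < ε}

/-- The forward orbit of every finite critical point converges to infinity or to an attracting
periodic cycle. -/
def Hyperbolic (f : Polynomial ℂ) : Prop :=
  ∀ c : ℂ, f.derivative.eval c = 0 →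
    Tendsto (fun n : ℕ => ‖iter f n c‖) atTop atTop ∨
      ∃ (p : ℂ) (k : ℕ), 0 < k ∧ iter f k p = p ∧ ‖deriv (iter f k) p‖ < 1 ∧
        Tendsto (fun n : ℕ => Metric.infDist (iter f n c) (Set.range fun j : ℕ => iter f j p))
          atTop (𝓝 0)

/-- The homeomorphism h of J is a quasisymmetry for the Euclidean metric. -/
def IsQuasisymmetry {J : Set ℂ} (h : J ≃ₜ J) : Prop :=
  ∃ η : ℝ≥0 ≃ₜ ℝ≥0, ∀ (x a b : J) (t : ℝ≥0),
    ‖(x : ℂ) - a‖ ≤ t * ‖(x : ℂ) - b‖ → ‖(h x : ℂ) - h a‖ ≤ η t * ‖(h x : ℂ) - h b‖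

end Pool.Agent.MP_28f04c_an.H67
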